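import Mathlib

/-!
MP_8f87b2_co, voltage section: one switch for every prime divisor of `n = 2k+1`, and the choice of
the contents `(h,2,1^m)`.
-/

namespace Pool.Agent.Work.MP_8f87b2_vo

open Finset

/-- Lemma P: switches with differences `d p`, one for every prime divisor. -/
theorem prime_switch (n : ℕ) (hn : n ≠ 0) (W : ℤ) (d : ℕ → ℤ)
    (hd : ∀ p ∈ n.primeFactors, ¬ ((p : ℤ) ∣ d p))
    (hq : ∀ p ∈ n.primeFactors, ∀ q ∈ n.primeFactors, q ≠ p → ((q : ℤ) ∣ d p)) :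
    ∃ S ⊆ n.primeFactors, IsUnit (((W + ∑ p ∈ S, d p : ℤ) : ℤ) : ZMod n) := by
  classical
  refine ⟨n.primeFactors.filter (fun p : ℕ => (p : ℤ) ∣ W), filter_subset _ _, ?_⟩
  rw [ZMod.coe_int_isUnit_iff_isCoprime, Int.isCoprime_iff_gcd_eq_one]
  by_contra hg
  obtain ⟨p, hp, hpd⟩ := Nat.exists_prime_and_dvd hg
  have h1 : (p : ℤ) ∣ (n : ℤ) := (Int.natCast_dvd_natCast.2 hpd).trans (Int.gcd_dvd_left _ _)
  have h2 : (p : ℤ) ∣ (W + ∑ p ∈ n.primeFactors.filter (fun p : ℕ => (p : ℤ) ∣ W), d p) :=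
    (Int.natCast_dvd_natCast.2 hpd).trans (Int.gcd_dvd_right _ _)
  have hpn : p ∈ n.primeFactors := Nat.mem_primeFactors.2 ⟨hp, Int.natCast_dvd_natCast.1 h1, hn⟩
  have h3 : ∀ q ∈ n.primeFactors, q ≠ p → (p : ℤ) ∣ d q := fun q hqm hne =>
    hq q hqm p hpn (Ne.symm hne)
  by_cases hW : (p : ℤ) ∣ W
  · have h4 : p ∈ n.primeFactors.filter (fun p : ℕ => (p : ℤ) ∣ W) := mem_filter.2 ⟨hpn, hW⟩
    rw [← add_sum_erase _ _ h4] at h2
    have h5 : (p : ℤ) ∣ ∑ x ∈ (n.primeFactors.filter (fun p : ℕ => (p : ℤ) ∣ W)).erase p, d x := by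
      refine dvd_sum fun q hqm => ?_
      rw [mem_erase, mem_filter] at hqm
      exact h3 q hqm.2.1 hqm.1
    have h6 : (p : ℤ) ∣ d p := by
      obtain ⟨a, ha⟩ := h2
      obtain ⟨b, hb⟩ := hW
      obtain ⟨c, hc⟩ := h5
      exact ⟨a - b - c, by rw [mul_sub, mul_sub, ← ha, ← hb, ← hc]; ring⟩
    exact hd p hpn h6
  · have h5 : (p : ℤ) ∣ ∑ x ∈ n.primeFactors.filter (fun p : ℕ => (p : ℤ) ∣ W), d x := by
      refine dvd_sum fun q hqm => ?_
      rw [mem_filter] at hqm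
      refine h3 q hqm.1 ?_
      rintro rfl
      exact hW hqm.2
    exact hW (by simpa using dvd_sub h2 h5)

/-- the contents `(h,2,1^m)` of the switch of the prime `p` -/
theorem exists_h (k p : ℕ) (hk : 12 ≤ k) (hp : p.Prime) (hpn : p ∣ 2 * k + 1) :
    ∃ h m : ℕ, 4 ≤ h ∧ 3 ≤ m ∧ h + 2 + m = k ∧ ¬ p ∣ (2 * h - 3) ∧
      ∀ q : ℕ, q.Prime → q ∣ 2 * k + 1 → q ≠ p → q ∣ (2 * h - 3) := by
  set n := 2 * k + 1 with hn
  have hn0 : n ≠ 0 := by omega
  have hodd : Odd n := ⟨k, rfl⟩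
  -- n = p^a * n'
  obtain ⟨a, n', hn', hpa⟩ : ∃ a n' : ℕ, ¬ p ∣ n' ∧ n = p ^ a * n' :=
    Nat.exists_eq_pow_mul_and_not_dvd hn0 p hp.ne_one
  have ha : a ≠ 0 := by
    rintro rfl
    rw [pow_zero, one_mul] at hpa
    exact hn' (hpa ▸ hpn)
  have hp2 : p ≠ 2 := by
    rintro rfl
    obtain ⟨c, hc⟩ := hpn
    omega
  have hp3 : 3 ≤ p := by
    have := hp.two_le
    omega
  have hpa3 : 3 ≤ p ^ a := hp3.trans (Nat.le_self_pow ha p)
  have hn'odd : Odd n' := by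
    rw [hpa] at hodd
    exact (Nat.odd_mul.1 hodd).2
  have key : ∀ t : ℕ, Odd t → ¬ p ∣ t → 5 ≤ t * n' → t * n' + 14 ≤ n →
      ∃ h m : ℕ, 4 ≤ h ∧ 3 ≤ m ∧ h + 2 + m = k ∧ ¬ p ∣ (2 * h - 3) ∧
      ∀ q : ℕ, q.Prime → q ∣ n → q ≠ p → q ∣ (2 * h - 3) := by
    intro t ht hpt h5 h14
    obtain ⟨c, hc⟩ := ht.mul hn'odd
    refine ⟨c + 2, k - (c + 4), by omega, by omega, by omega, ?_, ?_⟩
    · have e : 2 * (c + 2) - 3 = t * n' := by omega
      rw [e]
      intro h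
      rcases (Nat.Prime.dvd_mul hp).1 h with h | h
      · exact hpt h
      · exact hn' h
    · intro q hq hqn hqp
      have e : 2 * (c + 2) - 3 = t * n' := by omega
      rw [e]
      rw [hpa] at hqn
      rcases (Nat.Prime.dvd_mul hq).1 hqn with h | h
      · exact absurd ((Nat.prime_dvd_prime_iff_eq hq hp).1 (hq.dvd_of_dvd_pow h)) hqp
      · exact h.mul_left t
  have hn'pos : 0 < n' := by
    rcases Nat.eq_zero_or_pos n' with h | h
    · rw [h, mul_zero] at hpa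
      omega
    · exact h
  rcases le_or_gt 5 n' with h5 | h5
  · refine key 1 odd_one ?_ (by omega) ?_
    · intro h
      have := Nat.le_of_dvd one_pos h
      omega
    · have : 3 * n' ≤ n := by
        rw [hpa]
        exact Nat.mul_le_mul_right _ hpa3
      omega
  · have h13 : n' = 1 ∨ n' = 3 := by
      obtain ⟨c, hc⟩ := hn'odd
      omega
    rcases h13 with h | h
    · rcases eq_or_ne p 5 with h' | h'
      · subst h'
        exact key 7 (by decide) (by norm_num) (by omega) (by omega)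
      · refine key 5 (by decide) ?_ (by omega) (by omega)
        intro hd
        exact h' ((Nat.prime_dvd_prime_iff_eq hp (by norm_num)).1 hd)
    · refine key 3 (by decide) ?_ (by omega) (by omega)
      intro hd
      have := (Nat.prime_dvd_prime_iff_eq hp (by norm_num)).1 hd
      rw [h, this] at hn'
      exact hn' (dvd_refl 3)

end Pool.Agent.Work.MP_8f87b2_vo
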